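import Pool.Agent.Helper36_F5H.StmtsK2

/-!
# F5H, row K_NWT: measure of the degenerate set
-/

set_option autoImplicit false

open MeasureTheory Complex ComplexConjugate

namespace Pool.Agent.F5H.K2.H81

open Pool.Agent.Helper68_F5 Pool.Agent.F5H.W36 Pool.Agent.F5H.BC Pool.Agent.BTL Pool.Agent.F5S
  Pool.Agent.F5H Pool.Agent.F5H.K2

/-- Markov's inequality for a finite family, no measurability -/
theorem markov {α : Type*} (s : Finset α) (T : α → Set ℝ) (W : Set ℝ) (N : ENNReal)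
    (h : ∀ θ ∈ W, N ≤ ∑ v ∈ s, (T v).indicator (fun _ => (1 : ENNReal)) θ) :
    N * volume W ≤ ∑ v ∈ s, volume (T v) := by
  have hm : Measurable fun θ : ℝ => ∑ v ∈ s,
      (toMeasurable volume (T v)).indicator (fun _ => (1 : ENNReal)) θ :=
    Finset.measurable_fun_sum s fun v _ =>
      measurable_const.indicator (measurableSet_toMeasurable volume (T v))
  have hsub : W ⊆ {θ | N ≤ ∑ v ∈ s,
      (toMeasurable volume (T v)).indicator (fun _ => (1 : ENNReal)) θ} := by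
    intro θ hθ
    refine (h θ hθ).trans (Finset.sum_le_sum fun v _ => ?_)
    exact Set.indicator_le_indicator_of_subset (subset_toMeasurable volume (T v))
      (fun _ => zero_le) θ
  calc N * volume W ≤ N * volume {θ | N ≤ ∑ v ∈ s,
        (toMeasurable volume (T v)).indicator (fun _ => (1 : ENNReal)) θ} := by
        gcongr
    _ ≤ ∫⁻ θ, ∑ v ∈ s, (toMeasurable volume (T v)).indicator (fun _ => (1 : ENNReal)) θ :=
        mul_meas_ge_le_lintegral hm N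
    _ = ∑ v ∈ s, volume (T v) := by
        rw [lintegral_finsetSum s fun v _ =>
          measurable_const.indicator (measurableSet_toMeasurable volume (T v))]
        refine Finset.sum_congr rfl fun v _ => ?_
        rw [lintegral_indicator_const (measurableSet_toMeasurable volume (T v)), one_mul,
          measure_toMeasurable]

/-- the pair condition with trivial windows -/
theorem pair_triv {g : ℤ × ℤ →+ ℂ} {P R S r V₁ V₂ V₃ t₀ c : ℝ} {v h : T3}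
    {e₁ e₂ e₃ : ℂ} {κ₁ κ₂ κ₃ : ℝ} (hP : 1 ≤ P) (hR : 300000 * P ^ 3 ≤ R) (hRV : R ≤ V₂)
    (hVS : V₁ ^ 3 ≤ S) (h21 : V₂ ≤ V₁) (h32 : V₃ ≤ V₂) (h3 : 0 ≤ V₃)
    (n₁ : ‖g h.1‖ ≤ V₁) (n₂ : ‖g h.2.1‖ ≤ V₂) (n₃ : ‖g h.2.2‖ ≤ V₃)
    (ht₀ : |sp e₃ (g h.2.2)| ≤ t₀)
    (p : Pt P S 0 r (g h.1) (g h.2.1) (g h.2.2) e₁ e₂ e₃ κ₁ κ₂ κ₃)
    (hn : Near P c e₁ e₂ e₃ (g v.1) (g v.2.1) (g v.2.2)) (hc : R / 2 ≤ c)
    (hlo : R ≤ ‖g v.1‖) (hhi : ‖g v.1‖ ≤ 2 * R) :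
    Pair g (2 * P) R S V₁ V₂ V₃ (5 * (10 ^ 5 * P ^ 3 * V₁) + 16640000 * P ^ 6 * (V₁ / R))
      (5 * (10 ^ 5 * P ^ 3 * V₂) + 16640000 * P ^ 6 * (V₂ / R))
      (2 * R * t₀ + 90000 * P ^ 3 * V₃) v h := by
  obtain ⟨c', hc'⟩ : ∃ c', c' = ‖g v.1‖ := ⟨_, rfl⟩
  have hP3 : 1 ≤ P ^ 3 := one_le_pow₀ hP
  have hPP3 : P ≤ P ^ 3 := le_self_pow₀ hP (by norm_num)
  have hR0 : 0 < R := by linarith
  have hc0 : 0 ≤ c := by linarith
  have hcc : |c - c'| ≤ P := by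
    have h1 := norm_near hc0 p.he₁ hn.n₁
    rw [← hc', abs_sub_comm] at h1
    exact h1
  have hcR' : c' ≤ 2 * R := by rw [hc']; exact hhi
  have hRc' : R ≤ c' := by rw [hc']; exact hlo
  have hc'0 : 0 < c' := by linarith
  have hV2 : 0 < V₂ := by linarith
  have hV1 : 0 < V₁ := by linarith
  have hs : Sml (2 * P) S V₁ c' := by
    refine ⟨by linarith, ?_, by linarith, hVS⟩
    have : 300 * (2 * P) ^ 3 = 2400 * P ^ 3 := by ring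
    rw [this]
    linarith
  have hv : ∀ {e w : ℂ}, ‖e‖ = 1 → ‖w - (c : ℂ) * e‖ ≤ P → ‖w - (c' : ℂ) * e‖ ≤ 2 * P := by
    intro e w he ha
    have e1 : w - (c' : ℂ) * e = (w - (c : ℂ) * e) + ((c - c' : ℝ) : ℂ) * e := by push_cast; ring
    have e2 : ‖((c - c' : ℝ) : ℂ) * e‖ ≤ P := by
      rw [norm_mul, he, mul_one, Complex.norm_real, Real.norm_eq_abs]; exact hcc
    rw [e1]
    have := norm_add_le (w - (c : ℂ) * e) (((c - c' : ℝ) : ℂ) * e)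
    linarith
  have d₁ : Dat (2 * P) S V₁ c' e₁ (g v.1) (g h.1) κ₁ :=
    ⟨p.he₁, p.hκ₁, p.sq₁, n₁, hv p.he₁ hn.n₁⟩
  have d₂ : Dat (2 * P) S V₁ c' e₂ (g v.2.1) (g h.2.1) κ₂ :=
    ⟨p.he₂, p.hκ₂, p.sq₂, le_trans n₂ h21, hv p.he₂ hn.n₂⟩
  have d₃ : Dat (2 * P) S V₁ c' e₃ (g v.2.2) (g h.2.2) κ₃ :=
    ⟨p.he₃, p.hκ₃, p.sq₃, le_trans n₃ (le_trans h32 h21), hv p.he₃ hn.n₃⟩
  have w₁₂ : 1 ≤ 2 * P * |wd e₁ e₂| := by nlinarith [p.w₁₂, abs_nonneg (wd e₁ e₂)]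
  have w₂₃ : 1 ≤ 2 * P * |wd e₂ e₃| := by nlinarith [p.w₂₃, abs_nonneg (wd e₂ e₃)]
  have w₃₁ : 1 ≤ 2 * P * |wd e₃ e₁| := by nlinarith [p.w₃₁, abs_nonneg (wd e₃ e₁)]
  have htri := tri_of_dat hs d₁ d₂ d₃ w₁₂ w₂₃ w₃₁
  obtain ⟨A, hA⟩ : ∃ A, A = Ah S c' (g v.1) (g v.2.1) (g v.2.2) (g h.1) (g h.2.1) (g h.2.2) :=
    ⟨_, rfl⟩
  have hEv : ∀ {v H : ℂ}, bf A v v = c' ^ 2 * (1 + ‖H‖ ^ 2 / (4 * S)) →
      bf (A - (1, 0, 1)) v v = c' ^ 2 * (1 + ‖H‖ ^ 2 / (4 * S)) - ‖v‖ ^ 2 := by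
    intro v H h
    rw [bf_sub_left, bf_one, sp_self, h]
  have kE := E_bound hs d₁ d₂ d₃ w₁₂ w₂₃ w₃₁
    (hEv (H := g h.1) (by rw [hA]; exact itp_val₁ htri.w12 htri.w23 htri.w31 _ _ _))
    (hEv (H := g h.2.1) (by rw [hA]; exact itp_val₂ htri.w12 htri.w23 htri.w31 _ _ _))
    (hEv (H := g h.2.2) (by rw [hA]; exact itp_val₃ htri.w12 htri.w23 htri.w31 _ _ _))
  -- one index
  have hone : ∀ {e w H : ℂ} {κ V : ℝ}, Dat (2 * P) S V₁ c' e w H κ → ‖H‖ ≤ V →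
      |bf A w H - c' * sp e H| ≤ 86018 * (P ^ 3 * V) := by
    intro e w H κ V d hH
    have hV0 : 0 ≤ V := (norm_nonneg _).trans hH
    have e1 : bf A w H = sp w H + bf (A - (1, 0, 1)) w H := by
      rw [bf_sub_left, bf_one]; ring
    have e2 : w = (c' : ℂ) * e + (w - (c' : ℂ) * e) := by ring
    have e3 : sp w H = c' * sp e H + sp (w - (c' : ℂ) * e) H := by
      conv_lhs => rw [e2]
      rw [sp_add', sp_real]
    have e4 : bf A w H - c' * sp e H = sp (w - (c' : ℂ) * e) H + bf (A - (1, 0, 1)) w H := by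
      rw [e1, e3]; ring
    rw [e4]
    have q3 : |sp (w - (c' : ℂ) * e) H| ≤ 2 * P * V := by
      refine le_trans (abs_sp_le _ _) ?_
      exact mul_le_mul d.hv hH (norm_nonneg _) (by linarith)
    have nv := Dat.norm_v_le hs d
    have m2 : |bf (A - (1, 0, 1)) w H| ≤ 86016 * (P ^ 3 * V) := by
      refine (kE w H).trans ?_
      calc 5376 * (2 * P) ^ 3 / c' * (‖w‖ * ‖H‖) ≤
            5376 * (2 * P) ^ 3 / c' * (2 * c' * V) :=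
            mul_le_mul_of_nonneg_left (mul_le_mul nv hH (norm_nonneg _) (by positivity))
              (by positivity)
        _ = 86016 * (P ^ 3 * V) := by field_simp; ring
    have q4 : 2 * P * V ≤ 2 * (P ^ 3 * V) := by
      calc 2 * P * V = 2 * V * P := by ring
        _ ≤ 2 * V * P ^ 3 := mul_le_mul_of_nonneg_left hPP3 (by linarith)
        _ = _ := by ring
    refine (abs_add_le _ _).trans ?_
    linarith
  -- the radial components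
  have t1 : κ₁ * sp e₁ (g h.1) = κ₃ * sp e₃ (g h.2.2) := by
    have := abs_le.1 p.t₁
    linarith
  have t2 : κ₂ * sp e₂ (g h.2.1) = κ₃ * sp e₃ (g h.2.2) := by
    have := abs_le.1 p.t₂
    linarith
  have N₂ : ‖g h.2.1‖ ≤ V₁ := le_trans n₂ h21
  have N₃ : ‖g h.2.2‖ ≤ V₁ := le_trans n₃ (le_trans h32 h21)
  have hV11 : 1 ≤ V₁ := by linarith
  have spe : |sp e₃ (g h.2.2)| ≤ V₁ := by
    have := abs_sp_le e₃ (g h.2.2)
    rw [p.he₃, one_mul] at this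
    exact le_trans this N₃
  have c1 := (t_close hV11 hVS p.hκ₁ p.hκ₃ p.sq₁ p.sq₃ (norm_nonneg _) (norm_nonneg _) n₁ N₃
    spe t1).1
  have c2 := (t_close hV11 hVS p.hκ₂ p.hκ₃ p.sq₂ p.sq₃ (norm_nonneg _) (norm_nonneg _) N₂ N₃
    spe t2).1
  have o1 := hone d₁ n₁
  have o2 := hone d₂ n₂
  have o3 := hone d₃ n₃
  have hcomb : ∀ {X Z s s₃ V : ℝ}, |X - c' * s| ≤ 86018 * (P ^ 3 * V) →
      |Z - c' * s₃| ≤ 86018 * (P ^ 3 * V₃) → |s - s₃| ≤ 1 → V₂ ≤ V →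
      |X - Z| ≤ 5 * (10 ^ 5 * P ^ 3 * V) := by
    intro X Z s s₃ V h1 h2 h4 hV
    have e : X - Z = (X - c' * s) - (Z - c' * s₃) + c' * (s - s₃) := by ring
    rw [e]
    have a1 := abs_add_le ((X - c' * s) - (Z - c' * s₃)) (c' * (s - s₃))
    have a2 := abs_sub (X - c' * s) (Z - c' * s₃)
    have a3 : |c' * (s - s₃)| ≤ 2 * V := by
      rw [abs_mul, abs_of_pos hc'0]
      have : c' * |s - s₃| ≤ c' * 1 := mul_le_mul_of_nonneg_left h4 hc'0.le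
      linarith
    have a4 : P ^ 3 * V₃ ≤ P ^ 3 * V := mul_le_mul_of_nonneg_left (by linarith) (by linarith)
    have a5 : 1 * V ≤ P ^ 3 * V := mul_le_mul_of_nonneg_right hP3 (by linarith)
    have a6 : 5 * (10 ^ 5 * P ^ 3 * V) = 500000 * (P ^ 3 * V) := by ring
    rw [a6]
    linarith
  refine ⟨hlo, hhi, by rw [← hc']; exact htri, ?_⟩
  rw [← hc']
  have pos1 : 0 ≤ 16640000 * P ^ 6 * (V₁ / R) := by positivity
  have pos2 : 0 ≤ 16640000 * P ^ 6 * (V₂ / R) := by positivity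
  refine ⟨n₁, n₂, n₃, ?_, ?_, ?_⟩
  · rw [← hA]
    have := hcomb o1 o3 c1 h21
    linarith
  · rw [← hA]
    have := hcomb o2 o3 c2 le_rfl
    linarith
  · rw [← hA]
    have e : bf A (g v.2.2) (g h.2.2) = (bf A (g v.2.2) (g h.2.2) - c' * sp e₃ (g h.2.2)) +
      c' * sp e₃ (g h.2.2) := by ring
    rw [e]
    refine (abs_add_le _ _).trans ?_
    have q2 : |c' * sp e₃ (g h.2.2)| ≤ 2 * R * t₀ := by
      rw [abs_mul, abs_of_pos hc'0]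
      exact mul_le_mul hcR' ht₀ (abs_nonneg _) (by positivity)
    have m5 : 0 ≤ P ^ 3 * V₃ := by positivity
    have m6 : 90000 * P ^ 3 * V₃ = 90000 * (P ^ 3 * V₃) := by ring
    rw [m6]
    linarith

/-- the angles for one `v` -/
def Tn (P S r R lam : ℝ) (H₁ H₂ H₃ v₁ v₂ v₃ : ℂ) : Set ℝ :=
  {θ | θ ∈ Set.Ioc (-Real.pi) Real.pi ∧ ∃ (e₁ e₂ : ℂ) (κ₁ κ₂ κ₃ : ℝ),
    Pt P S 0 r H₁ H₂ H₃ e₁ e₂ (ee θ) κ₁ κ₂ κ₃ ∧ |Gm e₁ e₂ (ee θ) H₁ H₂ H₃| ≤ lam ∧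
    ∃ c : ℝ, R / 2 ≤ c ∧ c ≤ 2 * R ∧ Near P c e₁ e₂ (ee θ) v₁ v₂ v₃}

theorem tn_le {P S r R lam : ℝ} {H₁ H₂ H₃ v₁ v₂ v₃ : ℂ} {V₃ : ℝ} (hP : 1 ≤ P)
    (hR : 4 * P ≤ R) (hlo : R ≤ ‖v₁‖) (hV₃ : 0 < V₃) (hH : V₃ ≤ P * ‖H₃‖) (hr : 0 ≤ r) :
    volume (Tn P S r R lam H₁ H₂ H₃ v₁ v₂ v₃) ≤
      ENNReal.ofReal (min (80 * P / R) (40 * P * (min r V₃ / V₃))) := by
  by_cases he : (Tn P S r R lam H₁ H₂ H₃ v₁ v₂ v₃).Nonempty
  swap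
  · rw [Set.not_nonempty_iff_eq_empty] at he
    rw [he, measure_empty]
    exact bot_le
  have hR0 : 0 < R := by linarith
  have hcr : ∀ {e₁ e₂ e₃ : ℂ} {κ₁ κ₂ κ₃ c : ℝ}, Pt P S 0 r H₁ H₂ H₃ e₁ e₂ e₃ κ₁ κ₂ κ₃ →
      R / 2 ≤ c → Near P c e₁ e₂ e₃ v₁ v₂ v₃ → |wd e₃ v₃| ≤ P ∧ ‖v₁‖ ≤ ‖v₃‖ + 2 * P := by
    intro e₁ e₂ e₃ κ₁ κ₂ κ₃ c p hc hn
    have hc0 : 0 ≤ c := by linarith
    have h1 := abs_le.1 (norm_near hc0 p.he₁ hn.n₁)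
    have h3 := abs_le.1 (norm_near hc0 p.he₃ hn.n₃)
    refine ⟨?_, by linarith⟩
    have e1 : wd e₃ v₃ = wd e₃ (v₃ - (c : ℂ) * e₃) := by
      rw [wd_sub, wd_real', wd_self]; ring
    rw [e1]
    refine le_trans (abs_wd_le _ _) ?_
    rw [p.he₃, one_mul]
    exact hn.n₃
  have hv₃ : R / 2 ≤ ‖v₃‖ := by
    obtain ⟨θ₀, _, e₁, e₂, κ₁, κ₂, κ₃, hp, _, c, hc1, _, hn⟩ := he
    linarith [(hcr hp hc1 hn).2]
  have hv₃0 : v₃ ≠ 0 := by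
    rw [← norm_pos_iff]; linarith
  have hH0 : 0 < ‖H₃‖ := by
    by_contra h
    have : ‖H₃‖ = 0 := le_antisymm (not_lt.1 h) (norm_nonneg _)
    rw [this] at hH
    linarith
  have hH₃0 : H₃ ≠ 0 := norm_pos_iff.1 hH0
  have m1 : volume (Tn P S r R lam H₁ H₂ H₃ v₁ v₂ v₃) ≤ ENNReal.ofReal (80 * P / R) := by
    refine le_trans (measure_mono ?_) (le_trans (circ_wd' hv₃0 (by linarith : 0 ≤ P)) ?_)
    · rintro θ ⟨hθ, e₁, e₂, κ₁, κ₂, κ₃, hp, _, c, hc1, _, hn⟩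
      exact ⟨hθ, (hcr hp hc1 hn).1⟩
    · apply ENNReal.ofReal_le_ofReal
      have : P / ‖v₃‖ ≤ P / (R / 2) := div_le_div_of_nonneg_left (by linarith) (by linarith) hv₃
      calc 40 * (P / ‖v₃‖) ≤ 40 * (P / (R / 2)) := by linarith
        _ = 80 * P / R := by field_simp; ring
  have m2 : volume (Tn P S r R lam H₁ H₂ H₃ v₁ v₂ v₃) ≤
      ENNReal.ofReal (40 * P * (r / V₃)) := by
    refine le_trans (measure_mono ?_) (le_trans (circ' hH₃0 hr) ?_)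
    · rintro θ ⟨hθ, e₁, e₂, κ₁, κ₂, κ₃, hp, _⟩
      exact ⟨hθ, hp.slab⟩
    · apply ENNReal.ofReal_le_ofReal
      have : r / ‖H₃‖ ≤ P * (r / V₃) := by
        rw [div_le_iff₀ hH0]
        calc r = r / V₃ * V₃ := by field_simp
          _ ≤ r / V₃ * (P * ‖H₃‖) := mul_le_mul_of_nonneg_left hH (by positivity)
          _ = P * (r / V₃) * ‖H₃‖ := by ring
      linarith
  have m3 : volume (Tn P S r R lam H₁ H₂ H₃ v₁ v₂ v₃) ≤ ENNReal.ofReal (40 * P * 1) := by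
    refine le_trans (measure_mono (t := Set.Ioc (-Real.pi) Real.pi) ?_) ?_
    · rintro θ ⟨hθ, _⟩
      exact hθ
    · rw [Real.volume_Ioc]
      apply ENNReal.ofReal_le_ofReal
      have := Real.pi_lt_four
      linarith
  have m4 : volume (Tn P S r R lam H₁ H₂ H₃ v₁ v₂ v₃) ≤
      ENNReal.ofReal (40 * P * (min r V₃ / V₃)) := by
    rcases le_total r V₃ with h | h
    · rw [min_eq_left h]; exact m2
    · rw [min_eq_right h, div_self hV₃.ne']; exact m3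
  rcases le_total (80 * P / R) (40 * P * (min r V₃ / V₃)) with h | h
  · rw [min_eq_left h]; exact m1
  · rw [min_eq_right h]; exact m4

theorem div_out {X : ENNReal} {N B : ℝ} (hN : 0 < N)
    (h : ENNReal.ofReal N * X ≤ ENNReal.ofReal B) : X ≤ ENNReal.ofReal (N⁻¹ * B) := by
  have hN1 : ENNReal.ofReal N⁻¹ * ENNReal.ofReal N = 1 := by
    rw [← ENNReal.ofReal_mul (inv_nonneg.mpr hN.le), inv_mul_cancel₀ hN.ne', ENNReal.ofReal_one]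
  calc X = ENNReal.ofReal N⁻¹ * (ENNReal.ofReal N * X) := by rw [← mul_assoc, hN1, one_mul]
    _ ≤ ENNReal.ofReal N⁻¹ * ENNReal.ofReal B := by gcongr
    _ = ENNReal.ofReal (N⁻¹ * B) := (ENNReal.ofReal_mul (inv_nonneg.mpr hN.le)).symm

/-- the final arithmetic -/
theorem nwt_arith {K P R L X Y w Φ : ℝ} (hK : 0 ≤ K) (hP : 1 ≤ P) (hR : 0 < R) (hL : 0 ≤ L)
    (hX : 0 ≤ X) (hY : 0 ≤ Y) (hw : 0 ≤ w)
    (hΦ : Φ ≤ 400 * (10 ^ 5 * P ^ 3) ^ 4 * (Y * (1 + w * R))) :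
    (R / (8 * P))⁻¹ * (K * P ^ 60 * L * X * Φ) ≤
      (3200 * 10 ^ 20 * K) * P ^ 100 * L * X * (Y * (w + 1 / R)) := by
  have hP0 : 0 < P := by linarith
  have e1 : (R / (8 * P))⁻¹ = 8 * P / R := by rw [inv_div]
  rw [e1]
  calc 8 * P / R * (K * P ^ 60 * L * X * Φ) ≤
      8 * P / R * (K * P ^ 60 * L * X * (400 * (10 ^ 5 * P ^ 3) ^ 4 * (Y * (1 + w * R)))) := by
        gcongr
    _ = (3200 * 10 ^ 20 * K) * P ^ 73 * L * X * (Y * (w + 1 / R)) := by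
        field_simp
        ring
    _ ≤ (3200 * 10 ^ 20 * K) * P ^ 100 * L * X * (Y * (w + 1 / R)) := by
        have : P ^ 73 ≤ P ^ 100 := pow_le_pow_right₀ hP (by norm_num)
        gcongr

theorem nwt (hWSC : WSCStmt) (hPHN : PHNStmt) (hMNY : MNYStmt) : NWTStmt := by
  classical
  obtain ⟨K, hK, hwsc⟩ := hWSC
  refine ⟨3200 * 10 ^ 20 * K, by linarith, ?_⟩
  intro g hg P S r V₁ V₂ V₃ w R hP hcov hR hRV hS hVS hV3 h32 h21 hr hPr hw 𝓗 h𝓗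
  have hP0 : 0 < P := by linarith
  have hP3 : 1 ≤ P ^ 3 := one_le_pow₀ hP
  have hPP3 : P ≤ P ^ 3 := le_self_pow₀ hP (by norm_num)
  have hR0 : 0 < R := by linarith
  have hR1 : 1 ≤ R := by linarith
  have hV2 : 1 ≤ V₂ := by linarith
  have hV1 : 1 ≤ V₁ := by linarith
  have hVS3 : V₁ ^ 3 ≤ S := by
    have h1 : (V₁ ^ 3) ^ 2 ≤ S ^ 2 := by
      calc (V₁ ^ 3) ^ 2 = V₁ ^ 6 := by ring
        _ ≤ V₁ ^ 7 := pow_le_pow_right₀ hV1 (by norm_num)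
        _ ≤ S ^ 2 := hVS
    exact le_of_sq_le_sq h1 hS.le
  obtain ⟨𝓛, h𝓛⟩ : ∃ 𝓛 : Finset T3, 𝓛 = (lt g (3 * R) ×ˢ lt g (3 * R) ×ˢ lt g (3 * R)).filter
    (fun v => R ≤ ‖g v.1‖ ∧ ‖g v.1‖ ≤ 2 * R) := ⟨_, rfl⟩
  have hmem𝓛 : ∀ v ∈ 𝓛, R ≤ ‖g v.1‖ ∧ ‖g v.1‖ ≤ 2 * R := by
    intro v hv
    rw [h𝓛, Finset.mem_filter] at hv
    exact hv.2
  obtain ⟨f, hf⟩ : ∃ f : T3 × T3 → ENNReal, f = fun p => volume (Tn P S r R (w * V₁ ^ 3) (g p.2.1)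
    (g p.2.2.1) (g p.2.2.2) (g p.1.1) (g p.1.2.1) (g p.1.2.2)) := ⟨_, rfl⟩
  obtain ⟨N, hN⟩ : ∃ N : ℝ, N = R / (8 * P) := ⟨_, rfl⟩
  have hN0 : 0 < N := by rw [hN]; positivity
  -- Markov
  have hmk : ∀ h ∈ 𝓗, ENNReal.ofReal N *
      volume (Wt P S r (w * V₁ ^ 3) (g h.1) (g h.2.1) (g h.2.2)) ≤ ∑ v ∈ 𝓛, f (v, h) := by
    intro h _
    rw [hf]
    refine markov 𝓛 (fun v => Tn P S r R (w * V₁ ^ 3) (g h.1) (g h.2.1) (g h.2.2) (g v.1)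
      (g v.2.1) (g v.2.2)) _ _ ?_
    rintro θ ⟨hθ, e₁, e₂, κ₁, κ₂, κ₃, hpt, hGm⟩
    obtain ⟨𝓥, hcard, hsub, hprop⟩ := hMNY g hg P R e₁ e₂ (ee θ) hP (by linarith) hcov hpt.he₁
      hpt.he₂ hpt.he₃
    have hsub' : 𝓥 ⊆ 𝓛 := by
      intro v hv
      rw [h𝓛, Finset.mem_filter]
      exact ⟨hsub hv, (hprop v hv).1, (hprop v hv).2.1⟩
    have h1 : ∑ v ∈ 𝓥, (Tn P S r R (w * V₁ ^ 3) (g h.1) (g h.2.1) (g h.2.2) (g v.1)
        (g v.2.1) (g v.2.2)).indicator (fun _ => (1 : ENNReal)) θ = (𝓥.card : ENNReal) := by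
      rw [Finset.card_eq_sum_ones, Nat.cast_sum, Nat.cast_one]
      refine Finset.sum_congr rfl fun v hv => ?_
      obtain ⟨-, -, c, hc1, hc2, hc3⟩ := hprop v hv
      have hm : θ ∈ Tn P S r R (w * V₁ ^ 3) (g h.1) (g h.2.1) (g h.2.2) (g v.1) (g v.2.1)
          (g v.2.2) := ⟨hθ, e₁, e₂, κ₁, κ₂, κ₃, hpt, hGm, c, hc1, hc2, hc3⟩
      rw [Set.indicator_of_mem hm]
    calc ENNReal.ofReal N ≤ ENNReal.ofReal (𝓥.card : ℝ) :=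
          ENNReal.ofReal_le_ofReal (by rw [hN]; exact hcard)
      _ = (𝓥.card : ENNReal) := ENNReal.ofReal_natCast _
      _ = _ := h1.symm
      _ ≤ _ := Finset.sum_le_sum_of_subset hsub'
  -- the sum over all pairs
  have hsum : ENNReal.ofReal N *
      ∑ h ∈ 𝓗, volume (Wt P S r (w * V₁ ^ 3) (g h.1) (g h.2.1) (g h.2.2)) ≤
      ∑ p ∈ 𝓛 ×ˢ 𝓗, f p := by
    rw [Finset.mul_sum, Finset.sum_product_right]
    exact Finset.sum_le_sum hmk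
  obtain ⟨𝓒, h𝓒⟩ : ∃ 𝓒, 𝓒 = (𝓛 ×ˢ 𝓗).filter (fun p => f p ≠ 0) := ⟨_, rfl⟩
  have hsum2 : ∑ p ∈ 𝓛 ×ˢ 𝓗, f p = ∑ p ∈ 𝓒, f p := by
    rw [h𝓒, Finset.sum_filter_ne_zero]
  have hfne : ∀ p ∈ 𝓒, p.1 ∈ 𝓛 ∧ p.2 ∈ 𝓗 ∧ (Tn P S r R (w * V₁ ^ 3) (g p.2.1)
      (g p.2.2.1) (g p.2.2.2) (g p.1.1) (g p.1.2.1) (g p.1.2.2)).Nonempty := by
    intro p hp
    rw [h𝓒, Finset.mem_filter, Finset.mem_product] at hp
    refine ⟨hp.1.1, hp.1.2, ?_⟩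
    by_contra h
    rw [Set.not_nonempty_iff_eq_empty] at h
    apply hp.2
    rw [hf]
    simp only
    rw [h, measure_empty]
  have hω₁ : 1 ≤ 10 ^ 5 * P ^ 3 * V₁ := by nlinarith
  have hω₂ : 1 ≤ 10 ^ 5 * P ^ 3 * V₂ := by nlinarith
  have hΛ0 : 0 ≤ V₁ ^ 3 * (w + 1 / R) := by positivity
  have hmain := hwsc g hg P R S V₁ V₂ V₃ r (10 ^ 5 * P ^ 3 * V₁) (10 ^ 5 * P ^ 3 * V₂)
    (V₁ ^ 3 * (w + 1 / R)) (Cf g) hP hR (by linarith) hS hVS hV3 h32 h21 hr hω₁ hω₂ hΛ0 𝓒 f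
    (by
      intro p hp
      obtain ⟨hp1, hp2, θ, hθ, e₁, e₂, κ₁, κ₂, κ₃, hpt, hGm, c, hc1, hc2, hn⟩ := hfne p hp
      obtain ⟨hm1, hm2, hm3, -, -⟩ := h𝓗 _ hp2
      refine pair_triv hP hR hRV hVS3 h21 h32 (by linarith) hm1 hm2 hm3 ?_ hpt hn hc1
        (hmem𝓛 _ hp1).1 (hmem𝓛 _ hp1).2
      refine le_min hpt.slab ?_
      refine le_trans (abs_sp_le _ _) ?_
      rw [norm_ee, one_mul]
      exact hm3)
    (by
      intro p hp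
      obtain ⟨hp1, hp2, θ, hθ, e₁, e₂, κ₁, κ₂, κ₃, hpt, hGm, c, hc1, hc2, hn⟩ := hfne p hp
      obtain ⟨hm1, hm2, hm3, hm4, hm5⟩ := h𝓗 _ hp2
      have h1 := lev_pos (lam := w * V₁ ^ 3) hP (by linarith) (by linarith) hVS3 h21 h32 hPr hm1
        hm2 hm3 hm4 (by linarith) hpt hn hc1 hGm
      have e1 : w * V₁ ^ 3 + V₁ ^ 3 / R = V₁ ^ 3 * (w + 1 / R) := by ring
      rw [e1] at h1
      exact h1)
    (by
      intro p hp
      obtain ⟨hp1, hp2, -⟩ := hfne p hp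
      obtain ⟨-, -, -, -, hm5⟩ := h𝓗 _ hp2
      rw [hf]
      exact tn_le hP (by linarith) (hmem𝓛 _ hp1).1 (by linarith) hm5 (by linarith))
  have hphn := hPHN (10 ^ 5 * P ^ 3) V₁ V₂ R w (10 ^ 5 * P ^ 3 * V₁) (10 ^ 5 * P ^ 3 * V₂)
    (by linarith) hR1 hRV h21 hw hω₁ hω₂ le_rfl le_rfl
  rw [hsum2] at hsum
  have hfin := hsum.trans hmain
  have hlog : 0 ≤ 1 + Real.log V₁ := by
    have := Real.log_nonneg hV1
    linarith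
  refine (div_out hN0 hfin).trans (ENNReal.ofReal_le_ofReal ?_)
  rw [hN]
  refine (nwt_arith (L := (1 + Real.log V₁) ^ 6) (Y := (V₁ / V₂) ^ 2) (w := w) (by linarith)
    hP hR0 (by positivity) ?_ (by positivity) hw hphn).trans (le_of_eq ?_)
  · have : 0 ≤ min r V₃ := le_min (by linarith) (by linarith)
    positivity
  · ring

end Pool.Agent.F5H.K2.H81
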