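import Pool.Agent.F5H.StmtsD
import Pool.Agent.Helper3_F5H.C_CHA

/-!
# F5H, row C_COV: volumes in the chart
-/

set_option autoImplicit false

open MeasureTheory Complex ComplexConjugate

namespace Pool.Agent.F5H.BC.H81

open Pool.Agent.BTL Pool.Agent.F5S Pool.Agent.F5H Pool.Agent.F5H.BC

/-! ### volumes of Lipschitz images -/

section Lip

open Module Measure

variable {E F : Type*} [NormedAddCommGroup E] [NormedSpace ℝ E] [FiniteDimensional ℝ E]
  [MeasureSpace E] [BorelSpace E] [IsAddHaarMeasure (volume : Measure E)]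
  [NormedAddCommGroup F] [NormedSpace ℝ F] [FiniteDimensional ℝ F]
  [MeasureSpace F] [BorelSpace F] [IsAddHaarMeasure (volume : Measure F)]

theorem vol_lip (n : ℕ) (hE : finrank ℝ E = n) (hF : finrank ℝ F = n) :
    ∃ C : NNReal, ∀ (K : NNReal) (f : E → F) (S : Set E), LipschitzOnWith K f S →
      volume (f '' S) ≤ (C * K ^ n : NNReal) * volume S := by
  have : ProperSpace E := FiniteDimensional.proper ℝ E
  have : ProperSpace F := FiniteDimensional.proper ℝ F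
  have i1 : IsAddHaarMeasure (μH[(n : ℝ)] : Measure E) := by
    rw [← hE]
    infer_instance
  have i2 : IsAddHaarMeasure (μH[(n : ℝ)] : Measure F) := by
    rw [← hF]
    infer_instance
  have e1 := isAddLeftInvariant_eq_smul (μH[(n : ℝ)] : Measure E) (volume : Measure E)
  have e2 := isAddLeftInvariant_eq_smul (volume : Measure F) (μH[(n : ℝ)] : Measure F)
  refine ⟨addHaarScalarFactor (volume : Measure F) (μH[(n : ℝ)] : Measure F) *
    addHaarScalarFactor (μH[(n : ℝ)] : Measure E) (volume : Measure E), fun K f S hf => ?_⟩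
  generalize addHaarScalarFactor (volume : Measure F) (μH[(n : ℝ)] : Measure F) = c1 at e2
  generalize addHaarScalarFactor (μH[(n : ℝ)] : Measure E) (volume : Measure E) = c2 at e1
  have h1 := hf.hausdorffMeasure_image_le (d := (n : ℝ)) (by positivity)
  rw [ENNReal.rpow_natCast] at h1
  have h2 : volume (f '' S) = (c1 : ENNReal) * μH[(n : ℝ)] (f '' S) := by
    conv_lhs => rw [e2]
    rfl
  have h3 : μH[(n : ℝ)] S = (c2 : ENNReal) * volume S := by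
    conv_lhs => rw [e1]
    rfl
  rw [h2]
  calc (c1 : ENNReal) * μH[(n : ℝ)] (f '' S) ≤ c1 * ((K : ENNReal) ^ n * μH[(n : ℝ)] S) := by
        gcongr
    _ = _ := by
      rw [h3]
      push_cast
      ring

end Lip

/-! ### elementary estimates -/

theorem arctan_sub_le (x y : ℝ) : |Real.arctan x - Real.arctan y| ≤ |x - y| := by
  have h := Convex.norm_image_sub_le_of_norm_deriv_le (𝕜 := ℝ) (f := Real.arctan) (C := 1)
    (s := Set.univ) (x := y) (y := x) (fun z _ => Real.differentiableAt_arctan z)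
    (fun z _ => by
      rw [Real.deriv_arctan]
      have h1 : (1 : ℝ) ≤ 1 + z ^ 2 := by nlinarith [sq_nonneg z]
      simp only
      rw [Real.norm_eq_abs, abs_of_pos (by positivity)]
      exact (div_le_one (by positivity)).mpr h1) convex_univ
    (Set.mem_univ _) (Set.mem_univ _)
  rw [one_mul] at h
  exact h

theorem arg_eq {u : ℝ} (v : ℝ) (hu : |u| ≤ 1 / 16) :
    arg (1 + ((u : ℂ) + (v : ℂ) * I)) = Real.arctan (v / (1 + u)) := by
  obtain ⟨h1, h2⟩ := abs_le.mp hu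
  have hre : (1 + ((u : ℂ) + (v : ℂ) * I)).re = 1 + u := by simp
  have him : (1 + ((u : ℂ) + (v : ℂ) * I)).im = v := by simp
  have h3 : |arg (1 + ((u : ℂ) + (v : ℂ) * I))| < Real.pi / 2 := by
    rw [abs_arg_lt_pi_div_two_iff]
    left
    rw [hre]
    linarith
  obtain ⟨h4, h5⟩ := abs_lt.mp h3
  have h6 := tan_arg (1 + ((u : ℂ) + (v : ℂ) * I))
  rw [hre, him] at h6
  rw [← h6, Real.arctan_tan h4 h5]

theorem darg {u v u' v' : ℝ} (hu : |u| ≤ 1 / 16) (hu' : |u'| ≤ 1 / 16) (hv' : |v'| ≤ 1 / 16) :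
    |arg (1 + ((u : ℂ) + (v : ℂ) * I)) - arg (1 + ((u' : ℂ) + (v' : ℂ) * I))| ≤
      2 * |v - v'| + 2 * |u - u'| := by
  rw [arg_eq v hu, arg_eq v' hu']
  refine (arctan_sub_le _ _).trans ?_
  obtain ⟨h1, h2⟩ := abs_le.mp hu
  obtain ⟨h3, h4⟩ := abs_le.mp hu'
  have e : v / (1 + u) - v' / (1 + u') =
      ((v - v') * (1 + u') - v' * (u - u')) / ((1 + u) * (1 + u')) := by
    have h5 : (1 + u) ≠ 0 := by
      intro h
      linarith
    have h6 : (1 + u') ≠ 0 := by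
      intro h
      linarith
    field_simp
    ring
  have h7 : (3 / 4 : ℝ) ≤ (1 + u) * (1 + u') := by nlinarith
  rw [e, abs_div, abs_of_pos (show (0 : ℝ) < (1 + u) * (1 + u') by linarith),
    div_le_iff₀ (by linarith)]
  have h8 : |(v - v') * (1 + u') - v' * (u - u')| ≤ |v - v'| * (17 / 16) + 1 / 16 * |u - u'| := by
    refine (abs_sub _ _).trans ?_
    rw [abs_mul, abs_mul]
    have h9 : |1 + u'| ≤ 17 / 16 := by
      rw [abs_le]
      constructor <;> linarith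
    gcongr
  have h10 := abs_nonneg (v - v')
  have h11 := abs_nonneg (u - u')
  nlinarith

theorem dtheta {u v t u' v' t' : ℝ} (hu' : |u'| ≤ 1 / 16) (hv' : |v'| ≤ 1 / 16) :
    |(v * Real.cos (2 * t) - u * Real.sin (2 * t)) -
      (v' * Real.cos (2 * t') - u' * Real.sin (2 * t'))| ≤
      |v - v'| + |u - u'| + |t - t'| / 4 := by
  have e : (v * Real.cos (2 * t) - u * Real.sin (2 * t)) -
      (v' * Real.cos (2 * t') - u' * Real.sin (2 * t')) =
      ((v - v') * Real.cos (2 * t) + v' * (Real.cos (2 * t) - Real.cos (2 * t'))) -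
      ((u - u') * Real.sin (2 * t) + u' * (Real.sin (2 * t) - Real.sin (2 * t'))) := by ring
  rw [e]
  refine (abs_sub _ _).trans ?_
  have h0 : |2 * t - 2 * t'| = 2 * |t - t'| := by
    rw [← mul_sub, abs_mul, abs_of_pos (by norm_num : (0 : ℝ) < 2)]
  have h1 : |(v - v') * Real.cos (2 * t) + v' * (Real.cos (2 * t) - Real.cos (2 * t'))| ≤
      |v - v'| * 1 + 1 / 16 * (2 * |t - t'|) := by
    refine (abs_add_le _ _).trans ?_
    rw [abs_mul, abs_mul]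
    have h2 := Real.abs_cos_le_one (2 * t)
    have h3 := Real.abs_cos_sub_cos_le (2 * t) (2 * t')
    rw [h0] at h3
    gcongr
  have h4 : |(u - u') * Real.sin (2 * t) + u' * (Real.sin (2 * t) - Real.sin (2 * t'))| ≤
      |u - u'| * 1 + 1 / 16 * (2 * |t - t'|) := by
    refine (abs_add_le _ _).trans ?_
    rw [abs_mul, abs_mul]
    have h2 := Real.abs_sin_le_one (2 * t)
    have h3 := Real.abs_sin_sub_sin_le (2 * t) (2 * t')
    rw [h0] at h3
    gcongr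
  linarith

/-- forward estimate for the coefficients -/
theorem fwd1 {l u v l' u' v' d : ℝ} (hl' : |l'| ≤ 2) (hu : |u| ≤ 1 / 16)
    (hv : |v| ≤ 1 / 16) (hu' : |u'| ≤ 1 / 16) (hv' : |v'| ≤ 1 / 16) (h1 : |l - l'| ≤ d)
    (h2 : |u - u'| ≤ d) (h3 : |v - v'| ≤ d) :
    |l * ((1 + u) ^ 2 + v ^ 2) - l' * ((1 + u') ^ 2 + v' ^ 2)| ≤ 8 * d ∧
    |l * ((1 - u) ^ 2 + v ^ 2) - l' * ((1 - u') ^ 2 + v' ^ 2)| ≤ 8 * d ∧
    |2 * l * v - 2 * l' * v'| ≤ 8 * d := by
  have hd : 0 ≤ d := (abs_nonneg _).trans h1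
  obtain ⟨a1, a2⟩ := abs_le.mp hu
  obtain ⟨a3, a4⟩ := abs_le.mp hv
  obtain ⟨a5, a6⟩ := abs_le.mp hu'
  obtain ⟨a7, a8⟩ := abs_le.mp hv'
  have key : ∀ s : ℝ, |s| ≤ 1 → 
      |l * ((1 + s * u) ^ 2 + v ^ 2) - l' * ((1 + s * u') ^ 2 + v' ^ 2)| ≤ 8 * d := by
    intro s hs
    have b1 : |s * u| ≤ 1 / 16 := by
      rw [abs_mul]
      calc |s| * |u| ≤ 1 * (1 / 16) := by gcongr
        _ = 1 / 16 := by norm_num
    have b2 : |s * u'| ≤ 1 / 16 := by
      rw [abs_mul]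
      calc |s| * |u'| ≤ 1 * (1 / 16) := by gcongr
        _ = 1 / 16 := by norm_num
    obtain ⟨b3, b4⟩ := abs_le.mp b1
    obtain ⟨b5, b6⟩ := abs_le.mp b2
    have e : l * ((1 + s * u) ^ 2 + v ^ 2) - l' * ((1 + s * u') ^ 2 + v' ^ 2) =
        (l - l') * ((1 + s * u) ^ 2 + v ^ 2) + l' * (s * (u - u') * (2 + s * u + s * u') +
          (v - v') * (v + v')) := by ring
    rw [e]
    refine (abs_add_le _ _).trans ?_
    rw [abs_mul, abs_mul]
    have c1 : |(1 + s * u) ^ 2 + v ^ 2| ≤ 2 := by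
      rw [abs_le]
      constructor <;> nlinarith
    have c2 : |s * (u - u') * (2 + s * u + s * u') + (v - v') * (v + v')| ≤
        1 * d * (5 / 2) + d * (1 / 8) := by
      refine (abs_add_le _ _).trans ?_
      rw [abs_mul, abs_mul, abs_mul]
      have c3 : |2 + s * u + s * u'| ≤ 5 / 2 := by
        rw [abs_le]
        constructor <;> linarith
      have c4 : |v + v'| ≤ 1 / 8 := by
        rw [abs_le]
        constructor <;> linarith
      gcongr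
    calc |l - l'| * |(1 + s * u) ^ 2 + v ^ 2| +
        |l'| * |s * (u - u') * (2 + s * u + s * u') + (v - v') * (v + v')| ≤
        d * 2 + 2 * (1 * d * (5 / 2) + d * (1 / 8)) := by gcongr
      _ ≤ 8 * d := by linarith
  refine ⟨?_, ?_, ?_⟩
  · have := key 1 (by norm_num)
    simpa only [one_mul] using this
  · have := key (-1) (by norm_num)
    have e1 : ∀ w : ℝ, 1 + -1 * w = 1 - w := fun w => by ring
    simpa only [e1] using this
  · have e : 2 * l * v - 2 * l' * v' = 2 * ((l - l') * v) + 2 * (l' * (v - v')) := by ring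
    rw [e]
    refine (abs_add_le _ _).trans ?_
    rw [abs_mul, abs_mul, abs_mul, abs_mul, abs_of_pos (by norm_num : (0 : ℝ) < 2)]
    calc 2 * (|l - l'| * |v|) + 2 * (|l'| * |v - v'|) ≤ 2 * (d * (1 / 16)) + 2 * (2 * d) := by
          gcongr
      _ ≤ 8 * d := by linarith

/-- backward estimate for the coefficients -/
theorem bwd1 {l u v l' u' v' e : ℝ} (hl : 1 / 2 ≤ l) (hl' : |l'| ≤ 2) (hu : |u| ≤ 1 / 16)
    (hv : |v| ≤ 1 / 16) (hu' : |u'| ≤ 1 / 16) (hv' : |v'| ≤ 1 / 16)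
    (h1 : |l * ((1 + u) ^ 2 + v ^ 2) - l' * ((1 + u') ^ 2 + v' ^ 2)| ≤ e)
    (h2 : |l * ((1 - u) ^ 2 + v ^ 2) - l' * ((1 - u') ^ 2 + v' ^ 2)| ≤ e)
    (h3 : |2 * l * v - 2 * l' * v'| ≤ e) :
    |l - l'| ≤ 2 * e ∧ |u - u'| ≤ 2 * e ∧ |v - v'| ≤ 2 * e := by
  have he : 0 ≤ e := (abs_nonneg _).trans h1
  obtain ⟨a1, a2⟩ := abs_le.mp hu
  obtain ⟨a3, a4⟩ := abs_le.mp hv
  obtain ⟨a5, a6⟩ := abs_le.mp hu'
  obtain ⟨a7, a8⟩ := abs_le.mp hv'
  obtain ⟨b1, b2⟩ := abs_le.mp h1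
  obtain ⟨b3, b4⟩ := abs_le.mp h2
  have c1 : |(l - l') * (1 + u ^ 2 + v ^ 2) + l' * ((u - u') * (u + u') + (v - v') * (v + v'))| ≤
      e := by
    rw [abs_le]
    constructor <;> nlinarith
  have c2 : |(u - u') * (2 * l) + 2 * u' * (l - l')| ≤ e := by
    rw [abs_le]
    constructor <;> nlinarith
  have c3 : |(v - v') * (2 * l) + 2 * v' * (l - l')| ≤ e := by
    have : (v - v') * (2 * l) + 2 * v' * (l - l') = 2 * l * v - 2 * l' * v' := by ring
    rw [this]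
    exact h3
  have n1 := abs_nonneg (l - l')
  have n2 := abs_nonneg (u - u')
  have n3 := abs_nonneg (v - v')
  have d1 : |l - l'| ≤ e + 2 * (|u - u'| * (1 / 8) + |v - v'| * (1 / 8)) := by
    have f1 : |l - l'| * 1 ≤ |l - l'| * (1 + u ^ 2 + v ^ 2) :=
      mul_le_mul_of_nonneg_left (by nlinarith) n1
    have f2 : |(l - l') * (1 + u ^ 2 + v ^ 2)| = |l - l'| * (1 + u ^ 2 + v ^ 2) := by
      rw [abs_mul, abs_of_pos (show (0 : ℝ) < 1 + u ^ 2 + v ^ 2 by positivity)]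
    have f3 : (l - l') * (1 + u ^ 2 + v ^ 2) =
        ((l - l') * (1 + u ^ 2 + v ^ 2) + l' * ((u - u') * (u + u') + (v - v') * (v + v'))) -
          l' * ((u - u') * (u + u') + (v - v') * (v + v')) := by ring
    have f4 : |l' * ((u - u') * (u + u') + (v - v') * (v + v'))| ≤
        2 * (|u - u'| * (1 / 8) + |v - v'| * (1 / 8)) := by
      rw [abs_mul]
      have f5 : |(u - u') * (u + u') + (v - v') * (v + v')| ≤
          |u - u'| * (1 / 8) + |v - v'| * (1 / 8) := by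
        refine (abs_add_le _ _).trans ?_
        rw [abs_mul, abs_mul]
        have f6 : |u + u'| ≤ 1 / 8 := by
          rw [abs_le]
          constructor <;> linarith
        have f7 : |v + v'| ≤ 1 / 8 := by
          rw [abs_le]
          constructor <;> linarith
        gcongr
      gcongr
    have f8 := abs_sub ((l - l') * (1 + u ^ 2 + v ^ 2) +
      l' * ((u - u') * (u + u') + (v - v') * (v + v')))
      (l' * ((u - u') * (u + u') + (v - v') * (v + v')))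
    rw [← f3, f2] at f8
    linarith
  have aux : ∀ x y : ℝ, |y| ≤ 1 / 16 → |x * (2 * l) + 2 * y * (l - l')| ≤ e →
      |x| ≤ e + 1 / 8 * |l - l'| := by
    intro x y hy hx
    have f1 : |x| * 1 ≤ |x| * (2 * l) := mul_le_mul_of_nonneg_left (by linarith) (abs_nonneg x)
    have f2 : |x * (2 * l)| = |x| * (2 * l) := by
      rw [abs_mul, abs_of_pos (show (0 : ℝ) < 2 * l by linarith)]
    have f3 : x * (2 * l) = (x * (2 * l) + 2 * y * (l - l')) - 2 * y * (l - l') := by ring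
    have f4 : |2 * y * (l - l')| ≤ 1 / 8 * |l - l'| := by
      rw [abs_mul, abs_mul, abs_of_pos (by norm_num : (0 : ℝ) < 2)]
      have : 2 * |y| ≤ 1 / 8 := by linarith
      gcongr
    have f8 := abs_sub (x * (2 * l) + 2 * y * (l - l')) (2 * y * (l - l'))
    rw [← f3, f2] at f8
    linarith
  have d2 := aux _ _ hu' c2
  have d3 := aux _ _ hv' c3
  refine ⟨by linarith, by linarith, by linarith⟩

/-- forward estimate for the linear map -/
theorem fwd2 {p q r α β γ α' β' γ' M d : ℝ} (hM : 1 ≤ M) (hp : p ^ 2 ≤ M)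
    (hq : q ^ 2 + r ^ 2 ≤ M) (h1 : |α - α'| ≤ d) (h2 : |β - β'| ≤ d) (h3 : |γ - γ'| ≤ d) :
    |p ^ 2 * α - p ^ 2 * α'| ≤ 3 * M * d ∧
    |(p * q * α + p * r * β) - (p * q * α' + p * r * β')| ≤ 3 * M * d ∧
    |(q ^ 2 * α + 2 * q * r * β + r ^ 2 * γ) - (q ^ 2 * α' + 2 * q * r * β' + r ^ 2 * γ')| ≤
      3 * M * d := by
  have hd : 0 ≤ d := (abs_nonneg _).trans h1
  have hM0 : 0 ≤ M := by linarith
  have hMd : 0 ≤ M * d := mul_nonneg hM0 hd
  have q2 : q ^ 2 ≤ M := by nlinarith [sq_nonneg r]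
  have r2 : r ^ 2 ≤ M := by nlinarith [sq_nonneg q]
  have pq : |p * q| ≤ M := by
    rw [abs_le]
    constructor <;> nlinarith [sq_nonneg (p - q), sq_nonneg (p + q)]
  have pr : |p * r| ≤ M := by
    rw [abs_le]
    constructor <;> nlinarith [sq_nonneg (p - r), sq_nonneg (p + r)]
  have qr : |2 * q * r| ≤ M := by
    rw [abs_le]
    constructor <;> nlinarith [sq_nonneg (q - r), sq_nonneg (q + r)]
  refine ⟨?_, ?_, ?_⟩
  · rw [← mul_sub, abs_mul, abs_of_nonneg (sq_nonneg p)]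
    calc p ^ 2 * |α - α'| ≤ M * d := by gcongr
      _ ≤ 3 * M * d := by linarith
  · have e : (p * q * α + p * r * β) - (p * q * α' + p * r * β') =
      p * q * (α - α') + p * r * (β - β') := by ring
    rw [e]
    refine (abs_add_le _ _).trans ?_
    rw [abs_mul, abs_mul (p * r)]
    calc |p * q| * |α - α'| + |p * r| * |β - β'| ≤ M * d + M * d := by gcongr
      _ ≤ 3 * M * d := by linarith
  · have e : (q ^ 2 * α + 2 * q * r * β + r ^ 2 * γ) -
        (q ^ 2 * α' + 2 * q * r * β' + r ^ 2 * γ') =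
        q ^ 2 * (α - α') + 2 * q * r * (β - β') + r ^ 2 * (γ - γ') := by ring
    rw [e]
    refine (abs_add_le _ _).trans ?_
    have f1 := abs_add_le (q ^ 2 * (α - α')) (2 * q * r * (β - β'))
    rw [abs_mul, abs_mul (2 * q * r), abs_of_nonneg (sq_nonneg q)] at f1
    rw [abs_mul (r ^ 2), abs_of_nonneg (sq_nonneg r)]
    calc |q ^ 2 * (α - α') + 2 * q * r * (β - β')| + r ^ 2 * |γ - γ'| ≤
        (q ^ 2 * |α - α'| + |2 * q * r| * |β - β'|) + r ^ 2 * |γ - γ'| := by gcongr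
      _ ≤ (M * d + M * d) + M * d := by gcongr
      _ = 3 * M * d := by ring

/-- backward estimate for the linear map -/
theorem bwd2 {p q r α β γ α' β' γ' M D : ℝ} (hM : 1 ≤ M) (hp0 : 0 < p) (hr0 : 0 < r)
    (hp : p ^ 2 ≤ M) (hq : q ^ 2 + r ^ 2 ≤ M) (hp' : 1 ≤ M * p ^ 2) (hr' : 1 ≤ M * r ^ 2)
    (h1 : |p ^ 2 * α - p ^ 2 * α'| ≤ D)
    (h2 : |(p * q * α + p * r * β) - (p * q * α' + p * r * β')| ≤ D)
    (h3 : |(q ^ 2 * α + 2 * q * r * β + r ^ 2 * γ) -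
      (q ^ 2 * α' + 2 * q * r * β' + r ^ 2 * γ')| ≤ D) :
    |α - α'| ≤ 4 * M ^ 5 * D ∧ |β - β'| ≤ 4 * M ^ 5 * D ∧ |γ - γ'| ≤ 4 * M ^ 5 * D := by
  have hD : 0 ≤ D := (abs_nonneg _).trans h1
  have hM0 : 0 < M := by linarith
  have q2 : q ^ 2 ≤ M := by nlinarith [sq_nonneg r]
  have r2 : r ^ 2 ≤ M := by nlinarith [sq_nonneg q]
  have pq : |p * q| ≤ M := by
    rw [abs_le]
    constructor <;> nlinarith [sq_nonneg (p - q), sq_nonneg (p + q)]
  have qr : |2 * q * r| ≤ M := by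
    rw [abs_le]
    constructor <;> nlinarith [sq_nonneg (q - r), sq_nonneg (q + r)]
  have m1 : M ≤ M ^ 3 := by
    have := pow_le_pow_right₀ hM (show 1 ≤ 3 by norm_num)
    rwa [pow_one] at this
  have m2 : M ^ 3 ≤ M ^ 5 := pow_le_pow_right₀ hM (by norm_num)
  have m3 : M ^ 2 ≤ M ^ 3 := pow_le_pow_right₀ hM (by norm_num)
  -- the coefficient `α`
  have ha : |α - α'| ≤ M * D := by
    rw [← mul_sub, abs_mul, abs_of_nonneg (sq_nonneg p)] at h1
    calc |α - α'| = 1 * |α - α'| := (one_mul _).symm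
      _ ≤ (M * p ^ 2) * |α - α'| := by gcongr
      _ = M * (p ^ 2 * |α - α'|) := by ring
      _ ≤ M * D := by gcongr
  -- the product `p r`
  have hpr : 1 ≤ M * (p * r) := by
    have h5 : 1 * 1 ≤ (M * p ^ 2) * (M * r ^ 2) := by gcongr
    have h6 : 1 ≤ (M * (p * r)) ^ 2 := by
      calc (1 : ℝ) = 1 * 1 := by norm_num
        _ ≤ _ := h5
        _ = _ := by ring
    have h7 : 0 ≤ M * (p * r) := by positivity
    by_contra h8
    push Not at h8
    nlinarith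
  have hb0 : |β - β'| ≤ M * (D + M * (M * D)) := by
    have e : p * r * (β - β') = ((p * q * α + p * r * β) - (p * q * α' + p * r * β')) -
      p * q * (α - α') := by ring
    have h5 : |p * r * (β - β')| ≤ D + M * (M * D) := by
      rw [e]
      refine (abs_sub _ _).trans ?_
      rw [abs_mul (p * q)]
      gcongr
    rw [abs_mul, abs_of_pos (mul_pos hp0 hr0)] at h5
    calc |β - β'| = 1 * |β - β'| := (one_mul _).symm
      _ ≤ (M * (p * r)) * |β - β'| := by gcongr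
      _ = M * (p * r * |β - β'|) := by ring
      _ ≤ M * (D + M * (M * D)) := by gcongr
  have hb : |β - β'| ≤ 2 * M ^ 3 * D := by
    calc |β - β'| ≤ M * (D + M * (M * D)) := hb0
      _ = M * D + M ^ 3 * D := by ring
      _ ≤ M ^ 3 * D + M ^ 3 * D := by gcongr
      _ = 2 * M ^ 3 * D := by ring
  have hc : |γ - γ'| ≤ 4 * M ^ 5 * D := by
    have e : r ^ 2 * (γ - γ') = ((q ^ 2 * α + 2 * q * r * β + r ^ 2 * γ) -
        (q ^ 2 * α' + 2 * q * r * β' + r ^ 2 * γ')) -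
        (q ^ 2 * (α - α') + 2 * q * r * (β - β')) := by ring
    have h5 : |r ^ 2 * (γ - γ')| ≤ D + (M * (M * D) + M * (2 * M ^ 3 * D)) := by
      rw [e]
      refine (abs_sub _ _).trans ?_
      have h6 := abs_add_le (q ^ 2 * (α - α')) (2 * q * r * (β - β'))
      rw [abs_mul, abs_mul (2 * q * r), abs_of_nonneg (sq_nonneg q)] at h6
      have h7 : q ^ 2 * |α - α'| + |2 * q * r| * |β - β'| ≤ M * (M * D) + M * (2 * M ^ 3 * D) := by
        gcongr
      exact add_le_add h3 (h6.trans h7)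
    rw [abs_mul, abs_of_nonneg (sq_nonneg r)] at h5
    calc |γ - γ'| = 1 * |γ - γ'| := (one_mul _).symm
      _ ≤ (M * r ^ 2) * |γ - γ'| := by gcongr
      _ = M * (r ^ 2 * |γ - γ'|) := by ring
      _ ≤ M * (D + (M * (M * D) + M * (2 * M ^ 3 * D))) := by gcongr
      _ = M * D + M ^ 3 * D + 2 * M ^ 5 * D := by ring
      _ ≤ M ^ 5 * D + M ^ 5 * D + 2 * M ^ 5 * D := by
        have : M * D ≤ M ^ 5 * D := by
          gcongr
          exact m1.trans m2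
        gcongr
      _ = 4 * M ^ 5 * D := by ring
  have m4 : 0 ≤ M ^ 5 * D := by positivity
  have m5 : M * D ≤ M ^ 5 * D := by
    gcongr
    exact m1.trans m2
  have m6 : M ^ 3 * D ≤ M ^ 5 * D := by gcongr
  exact ⟨by linarith, by linarith, hc⟩

/-! ### the chart in coordinates -/

theorem ach_eq (A : ℝ × ℝ × ℝ) (l u v : ℝ) :
    Ach A l ((u : ℂ) + (v : ℂ) * I) =
      (√A.1 ^ 2 * (l * ((1 + u) ^ 2 + v ^ 2)),
        √A.1 * (A.2.1 / √A.1) * (l * ((1 + u) ^ 2 + v ^ 2)) +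
          √A.1 * √(disc A / A.1) * (2 * l * v),
        (A.2.1 / √A.1) ^ 2 * (l * ((1 + u) ^ 2 + v ^ 2)) +
          2 * (A.2.1 / √A.1) * √(disc A / A.1) * (2 * l * v) +
          √(disc A / A.1) ^ 2 * (l * ((1 - u) ^ 2 + v ^ 2))) := by
  have e1 : (gA A (1, 0)) = ⟨√A.1, 0⟩ := by
    apply Complex.ext
    · rw [H3.gA_re]; simp
    · rw [H3.gA_im]; simp
  have e2 : (gA A (0, 1)) = ⟨A.2.1 / √A.1, √(disc A / A.1)⟩ := by
    apply Complex.ext
    · rw [H3.gA_re]; simp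
    · rw [H3.gA_im]; simp
  unfold Ach
  rw [e1, e2]
  generalize √A.1 = p
  generalize √(disc A / A.1) = r
  generalize A.2.1 / p = q
  refine Prod.ext ?_ (Prod.ext ?_ ?_)
  · simp only [normSq_apply, add_re, add_im, mul_re, mul_im, conj_re, conj_im, ofReal_re,
      ofReal_im, I_re, I_im]
    ring
  · simp only [add_re, add_im, mul_re, mul_im, conj_re, conj_im, ofReal_re,
      ofReal_im, I_re, I_im]
    ring
  · simp only [normSq_apply, add_re, add_im, mul_re, mul_im, conj_re, conj_im, ofReal_re,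
      ofReal_im, I_re, I_im]
    ring

theorem ph3_eq (u v t : ℝ) : F5.H58.ph3 ((u : ℂ) + (v : ℂ) * I) t =
    t - (v * Real.cos (2 * t) - u * Real.sin (2 * t)) := by
  unfold F5.H58.ph3
  rw [mul_im, exp_ofReal_mul_I_re, exp_ofReal_mul_I_im]
  have e : -2 * t = -(2 * t) := by ring
  rw [e, Real.cos_neg, Real.sin_neg]
  simp only [add_re, add_im, mul_re, mul_im, ofReal_re, ofReal_im, I_re, I_im]
  ring

/-- the sizes of the entries of the frame -/
theorem ent {A : ℝ × ℝ × ℝ} {M : ℝ} (hM : 1 ≤ M) (hA : A ∈ KM M) :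
    0 < √A.1 ∧ 0 < √(disc A / A.1) ∧ √A.1 ^ 2 ≤ M ∧
      (A.2.1 / √A.1) ^ 2 + √(disc A / A.1) ^ 2 ≤ M ∧ 1 ≤ M * √A.1 ^ 2 ∧
      1 ≤ M * √(disc A / A.1) ^ 2 := by
  have ha := H3.a_pos hM hA
  have hD := H3.d_pos hM hA
  have hM0 : 0 < M := by linarith
  have h1 : √A.1 ^ 2 = A.1 := Real.sq_sqrt ha.le
  have h2 : √(disc A / A.1) ^ 2 = disc A / A.1 := Real.sq_sqrt (by positivity)
  have h3 : (A.2.1 / √A.1) ^ 2 = A.2.1 ^ 2 / A.1 := by rw [div_pow, h1]
  have h4 : A.2.1 ^ 2 / A.1 + disc A / A.1 = A.2.2 := by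
    unfold disc
    field_simp
    ring
  obtain ⟨k1, k2⟩ := hA (1, 0)
  obtain ⟨-, k4⟩ := hA (0, 1)
  obtain ⟨k5, -⟩ := hA (-A.2.1 / A.1, 1)
  rw [div_le_iff₀ hM0] at k1 k5
  simp only [nr, qf] at k1 k2 k4 k5
  have e : A.1 * (-A.2.1 / A.1) ^ 2 + 2 * A.2.1 * (-A.2.1 / A.1) * 1 + A.2.2 * 1 ^ 2 =
      disc A / A.1 := by
    unfold disc
    field_simp
    ring
  rw [e] at k5
  rw [h1, h2, h3, h4]
  refine ⟨Real.sqrt_pos.mpr ha, Real.sqrt_pos.mpr (by positivity), by linarith, by linarith,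
    by linarith, ?_⟩
  have := sq_nonneg (-A.2.1 / A.1)
  linarith

theorem psi_fwd {A : ℝ × ℝ × ℝ} {M : ℝ} (hM : 1 ≤ M) (hA : A ∈ KM M)
    {w w' : ℝ × (Fin 3 → ℝ)} (hw : w ∈ PsR) (hw' : w' ∈ PsR) :
    dist (Psi A w) (Psi A w') ≤ 24 * M * dist w w' := by
  obtain ⟨p0, r0, p1, q1, -, -⟩ := ent hM hA
  obtain ⟨a1, a2, a3, a4, a5⟩ := hw
  obtain ⟨b1, b2, b3, b4, b5⟩ := hw'
  have d1 : |w.1 - w'.1| ≤ dist w w' := by
    rw [← Real.dist_eq, Prod.dist_eq]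
    exact le_max_left _ _
  have d2 : ∀ i, |w.2 i - w'.2 i| ≤ dist w w' := by
    intro i
    rw [← Real.dist_eq, Prod.dist_eq]
    exact (dist_le_pi_dist w.2 w'.2 i).trans (le_max_right _ _)
  have hd : 0 ≤ dist w w' := dist_nonneg
  have hMd : 1 * dist w w' ≤ M * dist w w' := mul_le_mul_of_nonneg_right hM hd
  have hb : |w'.1| ≤ 2 := by
    rw [abs_le]
    constructor <;> linarith
  obtain ⟨f1, f2, f3⟩ := fwd1 (l := w.1) hb a3 a4 b3 b4 d1 (d2 0) (d2 1)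
  obtain ⟨g1, g2, g3⟩ := fwd2 hM p1 q1 f1 f3 f2
  have e24 : 3 * M * (8 * dist w w') = 24 * M * dist w w' := by ring
  rw [e24] at g1 g2 g3
  unfold Psi
  rw [ach_eq, ach_eq, ph3_eq, ph3_eq, Prod.dist_eq, Prod.dist_eq, Prod.dist_eq]
  simp only [Real.dist_eq]
  refine max_le (max_le g1 (max_le g2 g3)) ?_
  have t1 := dtheta (u := w.2 0) (v := w.2 1) (t := w.2 2) (t' := w'.2 2) b3 b4
  have t2 := darg (v := w.2 1) a3 b3 b4
  have t3 := d2 0
  have t4 := d2 1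
  have t5 := d2 2
  have e : w.2 2 - (w.2 1 * Real.cos (2 * w.2 2) - w.2 0 * Real.sin (2 * w.2 2)) -
        arg (1 + ((w.2 0 : ℂ) + (w.2 1 : ℂ) * I)) -
      (w'.2 2 - (w'.2 1 * Real.cos (2 * w'.2 2) - w'.2 0 * Real.sin (2 * w'.2 2)) -
        arg (1 + ((w'.2 0 : ℂ) + (w'.2 1 : ℂ) * I))) =
      ((w.2 2 - w'.2 2) - ((w.2 1 * Real.cos (2 * w.2 2) - w.2 0 * Real.sin (2 * w.2 2)) -
        (w'.2 1 * Real.cos (2 * w'.2 2) - w'.2 0 * Real.sin (2 * w'.2 2)))) -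
      (arg (1 + ((w.2 0 : ℂ) + (w.2 1 : ℂ) * I)) -
        arg (1 + ((w'.2 0 : ℂ) + (w'.2 1 : ℂ) * I))) := by ring
  rw [e]
  have u1 := abs_sub ((w.2 2 - w'.2 2) - ((w.2 1 * Real.cos (2 * w.2 2) -
    w.2 0 * Real.sin (2 * w.2 2)) - (w'.2 1 * Real.cos (2 * w'.2 2) -
    w'.2 0 * Real.sin (2 * w'.2 2)))) (arg (1 + ((w.2 0 : ℂ) + (w.2 1 : ℂ) * I)) -
        arg (1 + ((w'.2 0 : ℂ) + (w'.2 1 : ℂ) * I)))
  have u2 := abs_sub (w.2 2 - w'.2 2) ((w.2 1 * Real.cos (2 * w.2 2) -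
    w.2 0 * Real.sin (2 * w.2 2)) - (w'.2 1 * Real.cos (2 * w'.2 2) -
    w'.2 0 * Real.sin (2 * w'.2 2)))
  linarith

theorem psi_bwd {A : ℝ × ℝ × ℝ} {M : ℝ} (hM : 1 ≤ M) (hA : A ∈ KM M)
    {w w' : ℝ × (Fin 3 → ℝ)} (hw : w ∈ PsR) (hw' : w' ∈ PsR) :
    dist w w' ≤ 80 * M ^ 5 * dist (Psi A w) (Psi A w') := by
  obtain ⟨p0, r0, p1, q1, p2, r2⟩ := ent hM hA
  obtain ⟨a1, a2, a3, a4, a5⟩ := hw
  obtain ⟨b1, b2, b3, b4, b5⟩ := hw'
  have hd : 0 ≤ dist (Psi A w) (Psi A w') := dist_nonneg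
  have hb : |w'.1| ≤ 2 := by
    rw [abs_le]
    constructor <;> linarith
  have key : dist (Psi A w).1 (Psi A w').1 ≤ dist (Psi A w) (Psi A w') ∧
      dist (Psi A w).2 (Psi A w').2 ≤ dist (Psi A w) (Psi A w') := by
    rw [Prod.dist_eq (x := Psi A w)]
    exact ⟨le_max_left _ _, le_max_right _ _⟩
  generalize dist (Psi A w) (Psi A w') = D at hd key ⊢
  obtain ⟨key1, key2⟩ := key
  unfold Psi at key1 key2
  rw [ach_eq, ach_eq, Prod.dist_eq, Prod.dist_eq] at key1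
  rw [ph3_eq, ph3_eq] at key2
  simp only [Real.dist_eq] at key1 key2
  have k1 := (max_le_iff.mp key1).1
  have k2 := (max_le_iff.mp (max_le_iff.mp key1).2).1
  have k3 := (max_le_iff.mp (max_le_iff.mp key1).2).2
  obtain ⟨g1, g2, g3⟩ := bwd2 hM p0 r0 p1 q1 p2 r2 k1 k2 k3
  obtain ⟨f1, f2, f3⟩ := bwd1 a1 hb a3 a4 b3 b4 g1 g3 g2
  have m1 : 1 * D ≤ M ^ 5 * D := mul_le_mul_of_nonneg_right (one_le_pow₀ hM) hd
  have t1 := dtheta (u := w.2 0) (v := w.2 1) (t := w.2 2) (t' := w'.2 2) b3 b4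
  have t2 := darg (v := w.2 1) a3 b3 b4
  have t0 : |w.2 2 - w'.2 2| ≤ 20 * (4 * M ^ 5 * D) := by
    have e : w.2 2 - w'.2 2 =
      ((w.2 2 - (w.2 1 * Real.cos (2 * w.2 2) - w.2 0 * Real.sin (2 * w.2 2)) -
        arg (1 + ((w.2 0 : ℂ) + (w.2 1 : ℂ) * I)) -
      (w'.2 2 - (w'.2 1 * Real.cos (2 * w'.2 2) - w'.2 0 * Real.sin (2 * w'.2 2)) -
        arg (1 + ((w'.2 0 : ℂ) + (w'.2 1 : ℂ) * I)))) +
      ((w.2 1 * Real.cos (2 * w.2 2) - w.2 0 * Real.sin (2 * w.2 2)) -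
        (w'.2 1 * Real.cos (2 * w'.2 2) - w'.2 0 * Real.sin (2 * w'.2 2)))) +
      (arg (1 + ((w.2 0 : ℂ) + (w.2 1 : ℂ) * I)) -
        arg (1 + ((w'.2 0 : ℂ) + (w'.2 1 : ℂ) * I))) := by ring
    have u0 := abs_add_le ((w.2 2 - (w.2 1 * Real.cos (2 * w.2 2) - w.2 0 * Real.sin (2 * w.2 2)) -
        arg (1 + ((w.2 0 : ℂ) + (w.2 1 : ℂ) * I)) -
      (w'.2 2 - (w'.2 1 * Real.cos (2 * w'.2 2) - w'.2 0 * Real.sin (2 * w'.2 2)) -
        arg (1 + ((w'.2 0 : ℂ) + (w'.2 1 : ℂ) * I)))) +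
      ((w.2 1 * Real.cos (2 * w.2 2) - w.2 0 * Real.sin (2 * w.2 2)) -
        (w'.2 1 * Real.cos (2 * w'.2 2) - w'.2 0 * Real.sin (2 * w'.2 2))))
      (arg (1 + ((w.2 0 : ℂ) + (w.2 1 : ℂ) * I)) -
        arg (1 + ((w'.2 0 : ℂ) + (w'.2 1 : ℂ) * I)))
    have u1 := abs_add_le (w.2 2 - (w.2 1 * Real.cos (2 * w.2 2) -
        w.2 0 * Real.sin (2 * w.2 2)) -
        arg (1 + ((w.2 0 : ℂ) + (w.2 1 : ℂ) * I)) -
      (w'.2 2 - (w'.2 1 * Real.cos (2 * w'.2 2) - w'.2 0 * Real.sin (2 * w'.2 2)) -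
        arg (1 + ((w'.2 0 : ℂ) + (w'.2 1 : ℂ) * I))))
      ((w.2 1 * Real.cos (2 * w.2 2) - w.2 0 * Real.sin (2 * w.2 2)) -
        (w'.2 1 * Real.cos (2 * w'.2 2) - w'.2 0 * Real.sin (2 * w'.2 2)))
    rw [← e] at u0
    linarith
  have m2 : 0 ≤ 4 * M ^ 5 * D := by nlinarith
  have e80 : 80 * M ^ 5 * D = 20 * (4 * M ^ 5 * D) := by ring
  rw [e80, Prod.dist_eq]
  refine max_le ?_ ((dist_pi_le_iff (by positivity)).mpr ?_)
  · rw [Real.dist_eq]
    linarith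
  · intro i
    rw [Real.dist_eq]
    fin_cases i
    · exact f2.trans (by linarith)
    · exact f3.trans (by linarith)
    · exact t0

theorem cov : COVStmt := by
  have i1 : Measure.IsAddHaarMeasure (volume : Measure (ℝ × (Fin 3 → ℝ))) := by
    rw [Measure.volume_eq_prod]
    infer_instance
  have i2 : Measure.IsAddHaarMeasure (volume : Measure ((ℝ × ℝ × ℝ) × ℝ)) := by
    have i3 : Measure.IsAddHaarMeasure (volume : Measure (ℝ × ℝ × ℝ)) := by
      have i4 : Measure.IsAddHaarMeasure (volume : Measure (ℝ × ℝ)) := by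
        rw [Measure.volume_eq_prod]
        infer_instance
      rw [Measure.volume_eq_prod]
      infer_instance
    rw [Measure.volume_eq_prod]
    infer_instance
  obtain ⟨C1, hC1⟩ := vol_lip (E := ℝ × (Fin 3 → ℝ)) (F := (ℝ × ℝ × ℝ) × ℝ) 4 (by simp) (by simp)
  obtain ⟨C2, hC2⟩ := vol_lip (E := (ℝ × ℝ × ℝ) × ℝ) (F := ℝ × (Fin 3 → ℝ)) 4 (by simp) (by simp)
  refine ⟨20, by norm_num, 80 ^ 4 * ((C1 : ℝ) + C2) + 1, ?_, fun A M hM hA S hS => ⟨?_, ?_⟩⟩
  · have := C1.coe_nonneg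
    have := C2.coe_nonneg
    linarith [mul_nonneg (by norm_num : (0 : ℝ) ≤ 80 ^ 4) (add_nonneg C1.coe_nonneg C2.coe_nonneg)]
  · have hM0 : 0 ≤ M := by linarith
    have hK : LipschitzOnWith ⟨24 * M, by positivity⟩ (Psi A) S :=
      LipschitzOnWith.of_dist_le_mul fun w hw w' hw' => psi_fwd hM hA (hS hw) (hS hw')
    refine (hC1 _ _ _ hK).trans ?_
    refine mul_le_mul_left ?_ _
    rw [ENNReal.ofReal, ENNReal.coe_le_coe, Real.le_toNNReal_iff_coe_le (by positivity)]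
    push_cast
    change (C1 : ℝ) * (24 * M) ^ 4 ≤ _
    have h1 : M ^ 4 ≤ M ^ 20 := pow_le_pow_right₀ hM (by norm_num)
    have h2 : (C1 : ℝ) * (24 * M) ^ 4 ≤ 80 ^ 4 * (C1 : ℝ) * M ^ 20 := by
      calc (C1 : ℝ) * (24 * M) ^ 4 = 24 ^ 4 * (C1 : ℝ) * M ^ 4 := by ring
        _ ≤ 80 ^ 4 * (C1 : ℝ) * M ^ 20 := by gcongr; norm_num
    have h3 : (0 : ℝ) ≤ 80 ^ 4 * (C2 : ℝ) * M ^ 20 := by positivity
    have h4 : (0 : ℝ) ≤ M ^ 20 := by positivity
    calc (C1 : ℝ) * (24 * M) ^ 4 ≤ 80 ^ 4 * (C1 : ℝ) * M ^ 20 := h2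
      _ ≤ 80 ^ 4 * (C1 : ℝ) * M ^ 20 + 80 ^ 4 * (C2 : ℝ) * M ^ 20 + M ^ 20 := by linarith
      _ = (80 ^ 4 * ((C1 : ℝ) + C2) + 1) * M ^ 20 := by ring
  · have hM0 : 0 ≤ M := by linarith
    have hpos : 0 ≤ 80 * M ^ 5 := by positivity
    have hinj : Set.InjOn (Psi A) S := by
      intro w hw w' hw' h
      have h1 := psi_bwd hM hA (hS hw) (hS hw')
      rw [h, dist_self, mul_zero] at h1
      exact dist_le_zero.mp h1
    have hleft : ∀ w ∈ S, Function.invFunOn (Psi A) S (Psi A w) = w := fun w hw =>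
      hinj.leftInvOn_invFunOn hw
    have hK : LipschitzOnWith ⟨80 * M ^ 5, hpos⟩ (Function.invFunOn (Psi A) S)
        (Psi A '' S) := by
      refine LipschitzOnWith.of_dist_le_mul ?_
      rintro _ ⟨w, hw, rfl⟩ _ ⟨w', hw', rfl⟩
      rw [hleft w hw, hleft w' hw']
      exact psi_bwd hM hA (hS hw) (hS hw')
    have him : Function.invFunOn (Psi A) S '' (Psi A '' S) = S := by
      rw [Set.image_image]
      ext w
      constructor
      · rintro ⟨w', hw', h⟩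
        have h1 : w' = w := (hleft w' hw').symm.trans h
        rw [← h1]
        exact hw'
      · intro hw
        exact ⟨w, hw, hleft w hw⟩
    have h0 := hC2 _ _ _ hK
    rw [him] at h0
    refine h0.trans ?_
    refine mul_le_mul_left ?_ _
    rw [ENNReal.ofReal, ENNReal.coe_le_coe, Real.le_toNNReal_iff_coe_le (by positivity)]
    push_cast
    change (C2 : ℝ) * (80 * M ^ 5) ^ 4 ≤ _
    have h3 : (0 : ℝ) ≤ 80 ^ 4 * (C1 : ℝ) * M ^ 20 := by positivity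
    have h4 : (0 : ℝ) ≤ M ^ 20 := by positivity
    calc (C2 : ℝ) * (80 * M ^ 5) ^ 4 = 80 ^ 4 * (C2 : ℝ) * M ^ 20 := by ring
      _ ≤ 80 ^ 4 * (C1 : ℝ) * M ^ 20 + 80 ^ 4 * (C2 : ℝ) * M ^ 20 + M ^ 20 := by linarith
      _ = (80 ^ 4 * ((C1 : ℝ) + C2) + 1) * M ^ 20 := by ring

end Pool.Agent.F5H.BC.H81
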