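import Pool.Agent.F5H.StmtsA
import Pool.Agent.Helper39_F5S.TNF

/-!
MP_f5cbfa_nt, squad F5H, row `A_PRF` (helper81): the radial kernel.
-/

set_option autoImplicit false

open MeasureTheory Filter Topology

namespace Pool.Agent.F5H.H81

open Pool.Agent.BTL Pool.Agent.F5S

theorem prf : PRFStmt := by
  intro R hR
  obtain ⟨t1, t2, t3, t4, t5, -, t7, -⟩ := Pool.Agent.F5S.H39.tnf
  obtain ⟨iR, vR⟩ := t7 R hR
  have hI : ∀ u, Integrable (fun σ : ℝ => tn ((u - σ) / R) * tn (σ / R)) := by
    intro u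
    refine iR.mono' ?_ ?_
    · exact ((t3.comp ((continuous_const.sub continuous_id).div_const R)).mul
        (t3.comp (continuous_id.div_const R))).aestronglyMeasurable
    · refine Filter.Eventually.of_forall fun σ => ?_
      rw [Real.norm_eq_abs, abs_of_nonneg (mul_nonneg (t1 _).1 (t1 _).1)]
      exact mul_le_of_le_one_left (t1 _).1 (t1 _).2
  have hRi : (0 : ℝ) < R⁻¹ := inv_pos.2 hR
  refine ⟨fun u => ⟨?_, ?_⟩, ?_, ?_, ?_⟩
  · exact mul_nonneg hRi.le (integral_nonneg fun σ => mul_nonneg (t1 _).1 (t1 _).1)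
  · have h1 : ∫ σ : ℝ, tn ((u - σ) / R) * tn (σ / R) ≤ R :=
      (integral_mono (hI u) iR (fun σ => mul_le_of_le_one_left (t1 _).1 (t1 _).2)).trans
        (le_of_eq vR)
    unfold PR
    calc R⁻¹ * ∫ σ : ℝ, tn ((u - σ) / R) * tn (σ / R) ≤ R⁻¹ * R :=
          mul_le_mul_of_nonneg_left h1 hRi.le
      _ = 1 := inv_mul_cancel₀ hR.ne'
  · intro u hu
    by_contra hcon
    push Not at hcon
    apply hu
    unfold PR
    have h0 : (fun σ : ℝ => tn ((u - σ) / R) * tn (σ / R)) = fun _ => 0 := by
      funext σ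
      by_cases h : R ≤ |σ|
      · have : tn (σ / R) = 0 := by
          apply t4
          rw [abs_div, abs_of_pos hR, le_div_iff₀ hR]; linarith
        rw [this, mul_zero]
      · push Not at h
        have : tn ((u - σ) / R) = 0 := by
          apply t4
          rw [abs_div, abs_of_pos hR, le_div_iff₀ hR]
          have := abs_sub_abs_le_abs_sub u σ
          linarith
        rw [this, zero_mul]
    rw [h0, integral_zero, mul_zero]
  · intro u v
    unfold PR
    rw [← mul_sub, abs_mul, abs_of_pos hRi, ← integral_sub (hI u) (hI v)]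
    have h1 : |∫ σ : ℝ, (tn ((u - σ) / R) * tn (σ / R) - tn ((v - σ) / R) * tn (σ / R))| ≤
        ∫ σ : ℝ, |u - v| / R * tn (σ / R) := by
      rw [← Real.norm_eq_abs]
      refine norm_integral_le_of_norm_le (iR.const_mul _) (Filter.Eventually.of_forall fun σ => ?_)
      rw [Real.norm_eq_abs, ← sub_mul, abs_mul, abs_of_nonneg (t1 (σ / R)).1]
      refine mul_le_mul_of_nonneg_right ?_ (t1 _).1
      refine (t5 _ _).trans (le_of_eq ?_)
      rw [← sub_div, abs_div, abs_of_pos hR]
      congr 2; ring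
    rw [integral_const_mul, vR, div_mul_cancel₀ _ hR.ne'] at h1
    calc R⁻¹ * |∫ σ : ℝ, (tn ((u - σ) / R) * tn (σ / R) - tn ((v - σ) / R) * tn (σ / R))|
        ≤ R⁻¹ * |u - v| := mul_le_mul_of_nonneg_left h1 hRi.le
      _ = |u - v| / R := by rw [div_eq_inv_mul]
  · intro a b
    have he : (fun σ : ℝ => tn ((a - σ) / R) * tn ((b - σ) / R)) =
        fun σ => (fun s : ℝ => tn ((a - b - s) / R) * tn (s / R)) (σ - b) := by
      funext σ
      have e1 : (a - b - (σ - b)) = a - σ := by ring
      have e2 : (b - σ) / R = -((σ - b) / R) := by ring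
      simp only [e1, e2, t2]
    constructor
    · rw [he]; exact (hI (a - b)).comp_sub_right b
    · rw [he, integral_sub_right_eq_self (fun s : ℝ => tn ((a - b - s) / R) * tn (s / R)) b]
      unfold PR
      rw [mul_inv_cancel_left₀ hR.ne']

end Pool.Agent.F5H.H81
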