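import Pool.Agent.F5H.StmtsA
import Pool.Agent.Helper41_F5H.CLF

/-!
MP_f5cbfa_nt, squad F5H, row `A_VAE` (helper81): the second moment for one form.
-/

set_option autoImplicit false

open MeasureTheory Filter Topology

namespace Pool.Agent.F5H.H81

open Pool.Agent.BTL Pool.Agent.F5S

theorem nr_le {x : ℝ × ℝ} {r : ℝ} (hr : 0 ≤ r) (h : nr x ≤ r ^ 2) : ‖x‖ ≤ r := by
  unfold nr at h
  rw [Prod.norm_def]
  refine max_le ?_ ?_
  · rw [Real.norm_eq_abs]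
    exact abs_le_of_sq_le_sq (by nlinarith [sq_nonneg x.2]) hr
  · rw [Real.norm_eq_abs]
    exact abs_le_of_sq_le_sq (by nlinarith [sq_nonneg x.1]) hr

theorem nle_norm {x : R6} {r : ℝ} (hr : 0 ≤ r) (h : nle r x) : ‖x‖ ≤ r := by
  obtain ⟨h1, h2, h3⟩ := h
  rw [Prod.norm_def]
  refine max_le (nr_le hr h1) ?_
  rw [Prod.norm_def]
  exact max_le (nr_le hr h2) (nr_le hr h3)

theorem ball_norm {T : ℝ} (hT : 0 < T) {t : Z6}
    (ht : t ∈ ball (4 * T) ×ˢ (ball (4 * T) ×ˢ ball (4 * T))) : ‖r3 t‖ ≤ 4 * T := by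
  simp only [Finset.mem_product, ball, Finset.mem_filter] at ht
  obtain ⟨h1, h2, h3⟩ := ht
  refine nle_norm (by linarith) ⟨?_, ?_, ?_⟩
  · exact (h1.2).le
  · exact (h2.2).le
  · exact (h3.2).le

theorem vae (gen : GENStmt) : VAEStmt := by
  intro T L R e hT hL hLT hR he p W hWm hW01 hWs A ν₁ ν₂ hν₁ hν₂
  obtain ⟨-, -, c3, -⟩ := Pool.Agent.F5H.H41.clf L hL
  have hfin1 : IsFiniteMeasure ν₁ := by
    rw [hν₁]; infer_instance
  have hfin2 : IsFiniteMeasure ν₂ := by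
    rw [hν₂]
    refine isFiniteMeasure_restrict.2 ?_
    exact (isCompact_closedBall (0 : R6) (4 * T)).measure_lt_top.ne
  have ha1 : ∀ᵐ x ∂ν₁, ‖x‖ ≤ 4 * T := by
    rw [hν₁, ae_finsetSum_measure_iff]
    intro t ht
    rw [ae_dirac_eq]
    exact ball_norm hT ht
  have ha2 : ∀ᵐ x ∂ν₂, ‖x‖ ≤ 4 * T := by
    rw [hν₂, ae_restrict_iff' Metric.isClosed_closedBall.measurableSet]
    refine Filter.Eventually.of_forall fun x hx => ?_
    simpa using hx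
  have hW2 : ∀ c, W c ≠ 0 → ‖c‖ ≤ 2 * T := fun c hc => nle_norm (by linarith) (hWs c hc)
  have hW4 : ∀ c, W c ≠ 0 → ‖c‖ ≤ 4 * T := fun c hc => (hW2 c hc).trans (by linarith)
  have h4T : (0 : ℝ) < 4 * T := by linarith
  obtain ⟨i11, v11⟩ := gen L R e (4 * T) hL hR he h4T p W hWm hW01 hW4 A ν₁ ν₁ ha1 ha1
  obtain ⟨i12, v12⟩ := gen L R e (4 * T) hL hR he h4T p W hWm hW01 hW4 A ν₁ ν₂ ha1 ha2
  obtain ⟨i22, v22⟩ := gen L R e (4 * T) hL hR he h4T p W hWm hW01 hW4 A ν₂ ν₂ ha2 ha2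
  have hnn : ∀ z : R6 × ℝ, ∫ x, cl6 L z.1 x * gg R e p A z.2 x ∂ν₁ = nn T L R e p A z := by
    intro z
    rw [hν₁, integral_finsetSum_measure]
    · unfold nn
      refine Finset.sum_congr rfl fun t _ => ?_
      rw [integral_dirac]
    · intro t _
      exact integrable_dirac enorm_lt_top
  have hmm : ∀ z : R6 × ℝ, W z.1 ≠ 0 →
      ∫ x, cl6 L z.1 x * gg R e p A z.2 x ∂ν₂ = mm L R e p A z := by
    intro z hz
    rw [hν₂]
    unfold mm
    refine setIntegral_eq_integral_of_forall_compl_eq_zero fun x hx => ?_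
    by_contra hne
    apply hx
    have h1 : cl6 L z.1 x ≠ 0 := fun h => hne (by rw [h, zero_mul])
    have h2 := c3 _ _ h1
    have h3 := hW2 _ hz
    rw [mem_closedBall_zero_iff]
    calc ‖x‖ = ‖(x - z.1) + z.1‖ := by rw [sub_add_cancel]
      _ ≤ ‖x - z.1‖ + ‖z.1‖ := norm_add_le _ _
      _ ≤ 4 * T := by linarith
  have hpt : (fun z : R6 × ℝ => W z.1 * (nn T L R e p A z - mm L R e p A z) ^ 2) =
      fun z : R6 × ℝ =>
      (W z.1 * ((∫ x, cl6 L z.1 x * gg R e p A z.2 x ∂ν₁) *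
        (∫ y, cl6 L z.1 y * gg R e p A z.2 y ∂ν₁)) -
      2 * (W z.1 * ((∫ x, cl6 L z.1 x * gg R e p A z.2 x ∂ν₁) *
        (∫ y, cl6 L z.1 y * gg R e p A z.2 y ∂ν₂)))) +
      W z.1 * ((∫ x, cl6 L z.1 x * gg R e p A z.2 x ∂ν₂) *
        (∫ y, cl6 L z.1 y * gg R e p A z.2 y ∂ν₂)) := by
    funext z
    by_cases hz : W z.1 = 0
    · simp only [hz]; ring
    · rw [hnn z, hmm z hz]; ring
  constructor
  · rw [hpt]
    exact (i11.sub (i12.const_mul 2)).add i22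
  · unfold VA
    rw [hpt]
    refine (integral_add (i11.sub (i12.const_mul 2)) i22).trans ?_
    rw [v22]
    have h2 := (integral_sub i11 (i12.const_mul 2)).symm
    rw [integral_const_mul, v11, v12] at h2
    have h3 : ∫ z : R6 × ℝ, ((fun z : R6 × ℝ => W z.1 * ((∫ x, cl6 L z.1 x * gg R e p A z.2 x ∂ν₁) *
        (∫ y, cl6 L z.1 y * gg R e p A z.2 y ∂ν₁))) -
      fun z : R6 × ℝ => 2 * (W z.1 * ((∫ x, cl6 L z.1 x * gg R e p A z.2 x ∂ν₁) *
        (∫ y, cl6 L z.1 y * gg R e p A z.2 y ∂ν₂)))) z =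
        L ^ 6 * R * (∫ z : R6 × R6, FA L R e p W A z.1 z.2 ∂(ν₁.prod ν₁)) -
        2 * (L ^ 6 * R * ∫ z : R6 × R6, FA L R e p W A z.1 z.2 ∂(ν₁.prod ν₂)) := h2.symm
    rw [h3]
    ring

end Pool.Agent.F5H.H81
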